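import Mathlib
import Pool.Agent.H3.HullA

set_option autoImplicit false

namespace Pool.Agent.Results.MP_1038e0_co.HullGrows

open Classical
open Pool.Agent.H3.HullA

variable {n : ℕ}

/-- A straight-line drawing of `K_n`: distinct points, no three collinear. -/
def GenPos (p : Fin n → ℝ × ℝ) : Prop :=
  Function.Injective p ∧ ∀ a b c, a ≠ b → a ≠ c → b ≠ c → ¬ Collinear ℝ {p a, p b, p c}

/-- The distinct edges `xy` and `uw` meet at a point other than a shared endpoint. -/
def Crosses (p : Fin n → ℝ × ℝ) (x y u w : Fin n) : Prop :=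
  x ≠ y ∧ u ≠ w ∧ s(x, y) ≠ s(u, w) ∧
    ∃ z, z ∈ segment ℝ (p x) (p y) ∧ z ∈ segment ℝ (p u) (p w) ∧
      ¬ ∃ t, t ∈ s(x, y) ∧ t ∈ s(u, w) ∧ z = p t

def IsHom (p q : Fin n → ℝ × ℝ) (f : Fin n → Fin n) : Prop :=
  (∀ u v, u ≠ v → f u ≠ f v) ∧
    ∀ x y u w, Crosses p x y u w → Crosses q (f x) (f y) (f u) (f w)

def IsIso (p q : Fin n → ℝ × ℝ) (f : Fin n → Fin n) : Prop :=
  Function.Bijective f ∧ (∀ u v, u ≠ v ↔ f u ≠ f v) ∧
    ∀ x y u w, Crosses p x y u w ↔ Crosses q (f x) (f y) (f u) (f w)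

/-- The strict order of the geometric homomorphism poset. -/
def Prec (p q : Fin n → ℝ × ℝ) : Prop :=
  (∃ f, Function.Injective f ∧ IsHom p q f) ∧ ¬ ∃ f, IsIso p q f

/-- Number of vertices drawn at vertices (extreme points) of the convex hull. -/
noncomputable def hull (p : Fin n → ℝ × ℝ) : ℕ :=
  (Finset.univ.filter
    (fun v => p v ∈ (convexHull ℝ (Set.range p)).extremePoints ℝ)).card

lemma gp_of {p : Fin n → ℝ × ℝ} (h : GenPos p) : GP p := by
  intro a b c hab hac hbc hD
  apply h.2 a b c hab hac hbc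
  rw [collinear_iff_of_mem (p₀ := p a) (by simp)]
  refine ⟨p b - p a, fun z hz => ?_⟩
  simp only [Set.mem_insert_iff, Set.mem_singleton_iff] at hz
  rcases hz with rfl | rfl | rfl
  · exact ⟨0, by simp⟩
  · exact ⟨1, by simp⟩
  unfold D at hD
  by_cases h1 : (p b).1 - (p a).1 = 0
  · have h2 : (p b).2 - (p a).2 ≠ 0 := by
      intro h2
      exact hab (h.1 (Prod.ext (by linarith) (by linarith)))
    refine ⟨((p c).2 - (p a).2) / ((p b).2 - (p a).2), Prod.ext ?_ ?_⟩
    · simp only [vadd_eq_add, Prod.fst_add, Prod.smul_fst, Prod.fst_sub, smul_eq_mul]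
      rw [h1] at hD ⊢
      have : (p c).1 - (p a).1 = 0 := by
        have : ((p b).2 - (p a).2) * ((p c).1 - (p a).1) = 0 := by linarith
        exact (mul_eq_zero.1 this).resolve_left h2
      linarith
    · simp only [vadd_eq_add, Prod.snd_add, Prod.smul_snd, Prod.snd_sub, smul_eq_mul]
      field_simp; ring
  · refine ⟨((p c).1 - (p a).1) / ((p b).1 - (p a).1), Prod.ext ?_ ?_⟩
    · simp only [vadd_eq_add, Prod.fst_add, Prod.smul_fst, Prod.fst_sub, smul_eq_mul]
      field_simp; ring
    · simp only [vadd_eq_add, Prod.snd_add, Prod.smul_snd, Prod.snd_sub, smul_eq_mul]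
      field_simp; linarith

lemma seg_af {p : Fin n → ℝ × ℝ} {x y u w : Fin n} {z : ℝ × ℝ}
    (h1 : z ∈ segment ℝ (p x) (p y)) (h2 : z ∈ segment ℝ (p u) (p w)) :
    ∃ a b : ℝ, 0 ≤ a ∧ 0 ≤ b ∧ a + b = 1 ∧ a • p x + b • p y = z ∧
      a * D p u w x + b * D p u w y = 0 := by
  obtain ⟨a, b, ha, hb, hab, e⟩ := h1
  obtain ⟨c, d, -, -, hcd, e'⟩ := h2
  refine ⟨a, b, ha, hb, hab, e, ?_⟩
  have k := e.trans e'.symm
  have k1 := congrArg Prod.fst k
  have k2 := congrArg Prod.snd k
  simp only [Prod.fst_add, Prod.smul_fst, Prod.snd_add, Prod.smul_snd, smul_eq_mul] at k1 k2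
  obtain rfl : b = 1 - a := by linarith
  obtain rfl : c = 1 - d := by linarith
  unfold D
  linear_combination ((p w).1 - (p u).1) * k2 - ((p w).2 - (p u).2) * k1

lemma opp {a b s t : ℝ} (ha : 0 ≤ a) (hb : 0 ≤ b) (hab : a + b = 1) (e : a * s + b * t = 0)
    (hs : s ≠ 0) (ht : t ≠ 0) : s * t < 0 := by
  by_contra h
  have h' : 0 < s * t := lt_of_le_of_ne (not_lt.1 h) (mul_ne_zero hs ht).symm
  have e1 : a * (s * s) + b * (s * t) = 0 := by linear_combination s * e
  have ss := mul_self_pos.2 hs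
  rcases ha.lt_or_eq with ha | ha
  · nlinarith [mul_pos ha ss, mul_nonneg hb h'.le]
  · have : b = 1 := by linarith
    rw [← ha, this] at e1; linarith

lemma shared {p : Fin n → ℝ × ℝ} (hg : GP p) {x y w : Fin n} {z : ℝ × ℝ} (h1 : x ≠ y)
    (h2 : x ≠ w) (h3 : y ≠ w) (k1 : z ∈ segment ℝ (p x) (p y)) (k2 : z ∈ segment ℝ (p x) (p w)) :
    z = p x := by
  obtain ⟨a, b, -, -, hab, e, e'⟩ := seg_af k1 k2
  rw [D_aba, mul_zero, zero_add] at e'
  have hb := (mul_eq_zero.1 e').resolve_right (hg x w y h2 h1 h3.symm)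
  have : a = 1 := by linarith
  rw [← e, hb, this]; simp

lemma cross_iff {p : Fin n → ℝ × ℝ} (hg : GP p) (x y u w : Fin n) :
    Crosses p x y u w ↔ Cr p x y u w := by
  constructor
  · rintro ⟨h1, h2, h3, z, k1, k2, k3⟩
    have xu : x ≠ u := by
      rintro rfl
      exact k3 ⟨x, by simp, by simp, shared hg h1 h2 (by rintro rfl; exact h3 rfl) k1 k2⟩
    have xw : x ≠ w := by
      rintro rfl
      exact k3 ⟨x, by simp, by simp, shared hg h1 xu (by rintro rfl; exact h3 Sym2.eq_swap) k1
        (by rwa [segment_symm])⟩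
    have yu : y ≠ u := by
      rintro rfl
      exact k3 ⟨y, by simp, by simp, shared hg h1.symm h2 xw (by rwa [segment_symm]) k2⟩
    have yw : y ≠ w := by
      rintro rfl
      exact k3 ⟨y, by simp, by simp, shared hg h1.symm yu xu (by rwa [segment_symm])
        (by rwa [segment_symm])⟩
    obtain ⟨a, b, ha, hb, hab, -, e⟩ := seg_af k1 k2
    obtain ⟨c, d, hc, hd, hcd, -, e'⟩ := seg_af k2 k1
    exact ⟨opp hc hd hcd e' (hg x y u h1 xu yu) (hg x y w h1 xw yw),
      opp ha hb hab e (hg u w x h2 xu.symm xw.symm) (hg u w y h2 yu.symm yw.symm)⟩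
  · intro h
    obtain ⟨n1, n2, n3, n4, n5, n6⟩ := Cr_ne h
    refine ⟨n1, n6, by simp [n2, n3], ?_⟩
    obtain ⟨h1, h2⟩ := h
    have e : D p u w x - D p u w y = D p x y w - D p x y u := by unfold D; ring
    set A := D p x y u with hA
    set B := D p x y w with hB
    set C := D p u w x with hC
    set E := D p u w y with hE
    have hne : C - E ≠ 0 := by
      intro h0
      have : C = E := by linarith
      rw [this] at h2; nlinarith [mul_self_nonneg E]
    have sg : 0 ≤ -E / (C - E) ∧ 0 ≤ C / (C - E) ∧ 0 ≤ B / (C - E) ∧ 0 ≤ -A / (C - E) := by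
      rcases mul_neg_iff.1 h1 with k | k <;> rcases mul_neg_iff.1 h2 with l | l
      · exfalso; linarith [k.1, k.2, l.1, l.2]
      · refine ⟨?_, ?_, ?_, ?_⟩ <;> apply div_nonneg_of_nonpos <;> linarith [k.1, k.2, l.1, l.2]
      · refine ⟨?_, ?_, ?_, ?_⟩ <;> apply div_nonneg <;> linarith [k.1, k.2, l.1, l.2]
      · exfalso; linarith [k.1, k.2, l.1, l.2]
    refine ⟨(-E / (C - E)) • p x + (C / (C - E)) • p y,
      ⟨_, _, sg.1, sg.2.1, by field_simp; ring, rfl⟩,
      ⟨B / (C - E), -A / (C - E), sg.2.2.1, sg.2.2.2, by field_simp; linarith, ?_⟩, ?_⟩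
    · refine Prod.ext ?_ ?_
      · simp only [Prod.fst_add, Prod.smul_fst, smul_eq_mul]
        field_simp
        rw [hA, hB, hC, hE]; unfold D; ring
      · simp only [Prod.snd_add, Prod.smul_snd, smul_eq_mul]
        field_simp
        rw [hA, hB, hC, hE]; unfold D; ring
    · rintro ⟨t, h3, h4, -⟩
      simp only [Sym2.mem_iff] at h3 h4
      rcases h3 with rfl | rfl <;> rcases h4 with h | h <;> contradiction

lemma extreme_iff {p : Fin n → ℝ × ℝ} (hg : GP p) (h3 : 3 ≤ n) (v : Fin n) :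
    p v ∈ (convexHull ℝ (Set.range p)).extremePoints ℝ ↔ ¬ In p Finset.univ v := by
  have sub : ∀ a, p a ∈ convexHull ℝ (Set.range p) := fun a => subset_convexHull ℝ _ ⟨a, rfl⟩
  constructor
  · rintro ⟨-, hv⟩ ⟨a, -, b, -, c, -, h1, h2, h4⟩
    set A := D p b c v with hA
    set B := D p c a v with hB
    set C := D p a b v with hC
    have hBC : 0 < B + C := by linarith
    have hT : 0 < A + B + C := by linarith
    have m : (B / (B + C)) • p b + (C / (B + C)) • p c ∈ convexHull ℝ (Set.range p) :=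
      convex_convexHull ℝ _ (sub b) (sub c) (by positivity) (by positivity) (by field_simp)
    have := hv (sub a) m ⟨A / (A + B + C), (B + C) / (A + B + C), by positivity, by positivity,
      by field_simp; ring, by
        refine Prod.ext ?_ ?_
        · simp only [Prod.fst_add, Prod.smul_fst, smul_eq_mul]
          field_simp
          rw [hA, hB, hC]; unfold D; ring
        · simp only [Prod.snd_add, Prod.smul_snd, smul_eq_mul]
          field_simp
          rw [hA, hB, hC]; unfold D; ring⟩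
    have z : C = 0 := by rw [hC]; unfold D; rw [this]; ring
    linarith
  · intro hv
    obtain ⟨α, β, γ, hf⟩ := af_of_notIn hg hv (by simpa using h3)
    set f : ℝ × ℝ → ℝ := fun z => α * z.1 + β * z.2 + γ with hf'
    have lin : ∀ (x y : ℝ × ℝ) (a b : ℝ), a + b = 1 → f (a • x + b • y) = a * f x + b * f y := by
      intro x y a b hab
      simp only [hf', Prod.fst_add, Prod.smul_fst, Prod.snd_add, Prod.smul_snd, smul_eq_mul]
      linear_combination (-γ) * hab
    have key : convexHull ℝ (Set.range p) ⊆ {z | z = p v ∨ f (p v) < f z} := by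
      refine convexHull_min ?_ ?_
      · rintro _ ⟨z, rfl⟩
        by_cases h : z = v
        · exact Or.inl (by rw [h])
        · exact Or.inr (hf z (by simp) h)
      · intro x hx y hy a b ha hb hab
        have e := lin x y a b hab
        have hb' : a * f (p v) + b * f (p v) = f (p v) := by rw [← add_mul, hab, one_mul]
        rcases hx with hx | hx <;> rcases hy with hy | hy
        · left; rw [hx, hy, ← add_smul, hab, one_smul]
        · rcases hb.lt_or_eq with hb | hb
          · right; rw [e, hx]; nlinarith [mul_pos hb (sub_pos.2 hy)]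
          · left; rw [← hb, show a = 1 by linarith, hx]; simp
        · rcases ha.lt_or_eq with ha | ha
          · right; rw [e, hy]; nlinarith [mul_pos ha (sub_pos.2 hx)]
          · left; rw [← ha, show b = 1 by linarith, hy]; simp
        · right; rw [e]
          rcases ha.lt_or_eq with ha | ha
          · nlinarith [mul_pos ha (sub_pos.2 hx), mul_nonneg hb (sub_pos.2 hy).le]
          · rw [← ha, show b = 1 by linarith]; linarith
    refine ⟨sub v, fun x hx y hy ⟨a, b, ha, hb, hab, e⟩ => ?_⟩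
    have e' := lin x y a b hab
    rw [e] at e'
    rcases key hx with h | h
    · exact h
    exfalso
    have hy' : f (p v) ≤ f y := by
      rcases key hy with h | h
      · rw [h]
      · exact h.le
    have hb' : a * f (p v) + b * f (p v) = f (p v) := by rw [← add_mul, hab, one_mul]
    nlinarith [mul_pos ha (sub_pos.2 h), mul_nonneg hb.le (sub_nonneg.2 hy')]

theorem result (n : ℕ) (p q : Fin n → ℝ × ℝ) (hp : GenPos p) (hq : GenPos q)
    (h : Prec p q) : hull p < hull q := by
  obtain ⟨⟨f, hf, -, hh⟩, hn⟩ := h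
  have hb : Function.Bijective f := Finite.injective_iff_bijective.1 hf
  have g1 := gp_of hp
  have g2 := gp_of hq
  have g3 : GP (q ∘ f) := fun a b c h1 h2 h3 => g2 _ _ _ (hf.ne h1) (hf.ne h2) (hf.ne h3)
  have hX : ∀ x y u w, Cr p x y u w → Cr (q ∘ f) x y u w := fun x y u w h =>
    (cross_iff g2 _ _ _ _).1 (hh _ _ _ _ ((cross_iff g1 _ _ _ _).2 h))
  have : ∃ x y u w, Cr (q ∘ f) x y u w ∧ ¬ Cr p x y u w := by
    by_contra hc
    push Not at hc
    exact hn ⟨f, hb, fun u v => hf.ne_iff.symm, fun x y u w => ⟨hh x y u w, fun h =>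
      (cross_iff g1 _ _ _ _).2 (hc x y u w ((cross_iff g2 _ _ _ _).1 h))⟩⟩
  obtain ⟨x, y, u, w, h1, h2⟩ := this
  have h3 : 3 ≤ n := by
    obtain ⟨n1, n2, -, n4, -⟩ := Cr_ne h1
    have := Finset.card_le_univ ({x, y, u} : Finset (Fin n))
    rwa [Finset.card_eq_three.2 ⟨x, y, u, n1, n2, n4, rfl⟩, Fintype.card_fin] at this
  have m := main g1 g3 hX h1 h2
  have e1 : hull p = (H p Finset.univ).card := by
    unfold hull H
    congr 1
    exact Finset.filter_congr (fun v _ => extreme_iff g1 h3 v)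
  have e2 : hull q = (H (q ∘ f) Finset.univ).card := by
    unfold hull H
    symm
    refine Finset.card_bij (fun v _ => f v) ?_ (fun a _ b _ h => hf h) ?_
    · intro v hv
      have := (extreme_iff g3 h3 v).2 (Finset.mem_filter.1 hv).2
      rw [hb.2.range_comp] at this
      exact Finset.mem_filter.2 ⟨Finset.mem_univ _, this⟩
    · intro v hv
      obtain ⟨a, rfl⟩ := hb.2 v
      refine ⟨a, Finset.mem_filter.2 ⟨Finset.mem_univ _, (extreme_iff g3 h3 a).1 ?_⟩, rfl⟩
      rw [hb.2.range_comp]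
      exact (Finset.mem_filter.1 hv).2
  omega

end Pool.Agent.Results.MP_1038e0_co.HullGrows
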